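import Pool.Agent.MP_1246c0_nt.H12.SpecN

/-! Good configurations have positive probability. -/

namespace Pool.Agent.MP_1246c0_nt.H12

open Finset

namespace NA

theorem ind_pos {p : Prop} (h : p) : ind p = 1 := if_pos h

theorem ind_neg {p : Prop} (h : ¬p) : ind p = 0 := if_neg h

theorem ind_nn (p : Prop) : 0 ≤ ind p := by unfold ind; split_ifs <;> norm_num

theorem ind_le (p : Prop) : ind p ≤ 1 := by unfold ind; split_ifs <;> norm_num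

variable {U : Finset ℕ} {a b : ℕ → ℝ}

/-- the total mass -/
noncomputable def ZZ (U : Finset ℕ) (a b : ℕ → ℝ) : ℝ := ∏ p ∈ U, (1 + a p + b p)

theorem ZZ_nn (hw : ∀ p ∈ U, 0 ≤ a p ∧ 0 ≤ b p) : 0 ≤ ZZ U a b :=
  prod_nonneg fun p hp => by linarith [hw p hp]

theorem mk (hP : SPM) (hw : ∀ p ∈ U, 0 ≤ a p ∧ 0 ≤ b p) (f g : ℕ → ℝ)
    (hf : ∀ p ∈ U, 0 ≤ f p ∧ 0 ≤ g p) {t c : ℝ} (hc : 0 < c)
    (h : c * ∑ p ∈ U, (a p * f p + b p * g p) ≤ t) :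
    PS U a b (fun Sg B => ind (t < ∑ p ∈ Sg, f p + ∑ p ∈ B, g p)) ≤ ZZ U a b / c := by
  have hZ := ZZ_nn hw
  have h0 : ∀ p ∈ U, 0 ≤ a p * f p ∧ 0 ≤ b p * g p := fun p hp =>
    ⟨mul_nonneg (hw p hp).1 (hf p hp).1, mul_nonneg (hw p hp).2 (hf p hp).2⟩
  have h1 : 0 ≤ ∑ p ∈ U, (a p * f p + b p * g p) := sum_nonneg fun p hp => by linarith [h0 p hp]
  rcases ((mul_nonneg hc.le h1).trans h).eq_or_lt with rfl | ht
  · have h2 := (sum_eq_zero_iff_of_nonneg fun p hp => by linarith [h0 p hp]).1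
      (le_antisymm (nonpos_of_mul_nonpos_right h hc) h1)
    refine (hP.mono U a b _ (fun _ _ => 0) hw fun Sg hS B hB ha hb => (ind_neg ?_).le).trans ?_
    · rw [sum_eq_zero, sum_eq_zero]
      · simp
      · intro p hp
        have hU := sdiff_subset (hB hp)
        exact (mul_eq_zero.1 (by linarith [h0 p hU, h2 p hU])).resolve_left (hb p hp)
      · intro p hp
        exact (mul_eq_zero.1 (by linarith [h0 p (hS hp), h2 p (hS hp)])).resolve_left (ha p hp)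
    · simpa [PS] using div_nonneg hZ hc.le
  · have h2 := hP.markov U a b f g t hw hf
    rw [le_div_iff₀ hc]
    refine le_of_mul_le_mul_left ?_ ht
    have h3 := mul_le_mul_of_nonneg_left h hZ
    have h4 := mul_le_mul_of_nonneg_left h2 hc.le
    unfold ZZ at *
    nlinarith

theorem ch (hP : SPM) (hw : ∀ p ∈ U, 0 ≤ a p ∧ 0 ≤ b p ∧ a p + b p ≤ 1) {V : Finset ℕ} (hV : V ⊆ U)
    {x : ℝ} (hx : 0 < x) (h : 4 * x ≤ ∑ p ∈ V, b p) :
    PS U a b (fun _ B => ind (((B ∩ V).card : ℝ) < x)) ≤ 2 * ZZ U a b / x := by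
  have hw' : ∀ p ∈ U, 0 ≤ a p ∧ 0 ≤ b p := fun p hp => ⟨(hw p hp).1, (hw p hp).2.1⟩
  have hZ := ZZ_nn hw'
  have h1 : 2 * x ≤ ∑ p ∈ V, b p / (1 + a p + b p) := by
    refine le_trans ?_ (sum_le_sum (f := fun p => b p / 2) fun p hp => ?_)
    · rw [← sum_div]; linarith
    · obtain ⟨h1, h2, h3⟩ := hw p (hV hp)
      exact div_le_div_of_nonneg_left h2 (by linarith) (by linarith)
  have h2 := hP.cheb U V a b hw' hV
  generalize ∑ p ∈ V, b p / (1 + a p + b p) = μ at h1 h2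
  have hμ : 0 < μ := by linarith
  refine (hP.mono U a b _ (fun _ B => 4 / μ ^ 2 * (((B ∩ V).card : ℝ) - μ) ^ 2) hw'
    fun Sg _ B _ _ _ => ?_).trans ?_
  · by_cases h3 : ((B ∩ V).card : ℝ) < x
    · rw [ind_pos h3, div_mul_eq_mul_div, le_div_iff₀ (by positivity)]
      have : (0 : ℝ) ≤ (B ∩ V).card := Nat.cast_nonneg _
      nlinarith
    · rw [ind_neg h3]; positivity
  · rw [hP.cmul]
    refine (mul_le_mul_of_nonneg_left h2 (by positivity)).trans ?_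
    rw [show 4 / μ ^ 2 * ((∏ p ∈ U, (1 + a p + b p)) * μ) = 4 * ZZ U a b / μ by
      unfold ZZ; field_simp, div_le_div_iff₀ hμ hx]
    nlinarith

theorem chr (hP : SPM) (hw : ∀ p ∈ U, 0 ≤ a p ∧ 0 ≤ b p ∧ a p + b p ≤ 1) {V : Finset ℕ}
    (hV : V ⊆ U) (ψ : ℕ → F2) (hψ : ∀ p ∈ V, ψ p = 1) (h : 999 ≤ ∑ p ∈ V, b p) :
    |PS U a b fun Sg B => sg (∑ p ∈ Sg ∪ B, ψ p)| ≤ ZZ U a b / 1000 := by
  refine (hP.chr U V a b ψ hw hV hψ).trans ?_
  rw [div_eq_mul_inv, Real.exp_neg]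
  exact mul_le_mul_of_nonneg_left (inv_anti₀ (by norm_num)
    (by linarith [Real.add_one_le_exp (∑ p ∈ V, b p)])) (ZZ_nn fun p hp => ⟨(hw p hp).1, (hw p hp).2.1⟩)

theorem par_eq (S : Finset ℕ) :
    ind (∑ l ∈ S, eps l = 1 ∧ Even (S.filter fun l => lev l = 0).card) =
      1 / 4 * 1 + -1 / 4 * sg (∑ l ∈ S, eps l) + 1 / 4 * sg (∑ l ∈ S, if lev l = 0 then 1 else 0) +
        -1 / 4 * sg (∑ l ∈ S, (eps l + if lev l = 0 then 1 else 0)) := by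
  rw [sum_add_distrib, ← ZMod.natCast_eq_zero_iff_even, ← sum_boole]
  generalize ∑ l ∈ S, eps l = x
  generalize (∑ l ∈ S, if lev l = 0 then (1 : F2) else 0) = y
  have h : ∀ z : F2, z = 0 ∨ z = 1 := by decide
  have h2 : (1 : F2) + 1 = 0 := by decide
  rcases h x with rfl | rfl <;> rcases h y with rfl | rfl <;> simp [ind, sg, h2] <;> norm_num

variable {tp j0 : ℕ} {m0 D0 R : ℝ}

theorem par (hP : SPM) (H : Hyp U a b tp j0 m0 D0 R) (hj : 20 ≤ j0) :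
    ZZ U a b * (247 / 1000) ≤ PS U a b fun Sg B =>
      ind (∑ l ∈ Sg ∪ B, eps l = 1 ∧ Even ((Sg ∪ B).filter fun l => lev l = 0).card) := by
  have h1 : ∀ ε : F2, 999 ≤ ∑ p ∈ U.filter fun l => lev l = 0 ∧ eps l = ε, b p := fun ε => by
    refine le_trans ?_ (H.cls 0 (Nat.zero_le _) ε).1
    have : (2 : ℝ) ^ 20 ≤ 2 ^ jj tp j0 0 := pow_le_pow_right₀ one_le_two (by unfold jj; omega)
    linarith
  have h2 := chr hP H.wt (filter_subset _ U) eps (fun p hp => (mem_filter.1 hp).2.2) (h1 1)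
  have h3 := chr hP H.wt (filter_subset _ U) (fun l => if lev l = 0 then 1 else 0)
    (fun p hp => if_pos (mem_filter.1 hp).2.1) (h1 1)
  have h4 := chr hP H.wt (filter_subset _ U) (fun l => eps l + if lev l = 0 then 1 else 0)
    (fun p hp => by rw [if_pos (mem_filter.1 hp).2.1, (mem_filter.1 hp).2.2, zero_add]) (h1 0)
  simp only [par_eq]
  rw [hP.add, hP.add, hP.add, hP.cmul, hP.cmul, hP.cmul, hP.cmul, hP.one]
  unfold ZZ at *
  linarith [abs_le.1 h2, abs_le.1 h3, abs_le.1 h4]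

/-- a class of primes -/
def cl (U : Finset ℕ) (i : ℕ × F2) : Finset ℕ := U.filter fun l => lev l = i.1 ∧ eps l = i.2

/-- failure of the count in a class -/
noncomputable def fc (U : Finset ℕ) (tp j0 : ℕ) (i : ℕ × F2) (Sg B : Finset ℕ) : ℝ :=
  ind (((B ∩ cl U i).card : ℝ) < 2 ^ jj tp j0 i.1) + ind ((2 : ℝ) ^ (2 * jj tp j0 i.1) <
    ∑ _p ∈ Sg, (0 : ℝ) + ∑ p ∈ B, if lev p = i.1 ∧ eps p = i.2 then 1 else 0)

theorem cnt (hP : SPM) (H : Hyp U a b tp j0 m0 D0 R) (hj : 20 ≤ j0) :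
    PS U a b (fun Sg B => ∑ i ∈ range (tp + 1) ×ˢ univ, fc U tp j0 i Sg B) ≤ ZZ U a b / 1000 := by
  have hw : ∀ p ∈ U, 0 ≤ a p ∧ 0 ≤ b p := fun p hp => ⟨(H.wt p hp).1, (H.wt p hp).2.1⟩
  have hZ := ZZ_nn hw
  rw [hP.sum]
  refine (sum_le_sum (g := fun i => 34 * ZZ U a b * (1 / 2) ^ j0 * (1 / 2) ^ (tp + 1 - 1 - i.1))
    fun i hi => ?_).trans ?_
  · have h0 : i.1 ≤ tp := Nat.lt_succ_iff.1 (mem_range.1 (mem_product.1 hi).1)
    obtain ⟨h1, h2⟩ := H.cls i.1 h0 i.2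
    unfold fc
    rw [hP.add]
    refine (add_le_add (ch hP H.wt (filter_subset _ _) (by positivity) h1)
      (mk hP hw _ _ (fun p _ => ⟨le_rfl, by positivity⟩) (c := 2 ^ jj tp j0 i.1 / 32)
        (by positivity) ?_)).trans_eq ?_
    · simp only [mul_zero, zero_add, mul_ite, mul_one, ← sum_filter]
      refine (mul_le_mul_of_nonneg_left h2 (by positivity)).trans_eq ?_
      ring
    · rw [show jj tp j0 i.1 = j0 + (tp + 1 - 1 - i.1) by unfold jj; omega, pow_add, one_div,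
        inv_pow, inv_pow]
      field_simp
      ring
  · rw [sum_product]
    simp only [sum_const, card_univ, ZMod.card, nsmul_eq_mul, ← mul_sum]
    rw [sum_range_reflect (fun i => (1 / 2 : ℝ) ^ i)]
    have h1 := sum_geometric_two_le (tp + 1)
    have h2 : (1 / 2 : ℝ) ^ j0 ≤ (1 / 2) ^ 20 := pow_le_pow_of_le_one (by norm_num) (by norm_num) hj
    have h3 := mul_le_mul (mul_le_mul_of_nonneg_left h2 hZ) h1 (by positivity) (by positivity)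
    push_cast
    linarith

/-- the primes that detect `W` -/
noncomputable def dt (U : Finset ℕ) (tp : ℕ) (W : Finset ℕ) : Finset ℕ :=
  (U \ W).filter fun l => tp / 2 < lev l ∧ eps l = 0 ∧ ∑ l' ∈ W, lg l l' = 1

/-- the small sets -/
noncomputable def sm (U : Finset ℕ) (D0 : ℝ) : Finset (Finset ℕ) :=
  U.powerset.filter fun W => W.Nonempty ∧ ∑ l ∈ W, Real.log l ≤ D0

theorem det (hP : SPM) (H : Hyp U a b tp j0 m0 D0 R) :
    PS U a b (fun Sg B => ∑ W ∈ sm U D0, ind (W ⊆ Sg ∧ Disjoint B (dt U tp W))) ≤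
      ZZ U a b / 11 := by
  have hw : ∀ p ∈ U, 0 ≤ a p ∧ 0 ≤ b p := fun p hp => ⟨(H.wt p hp).1, (H.wt p hp).2.1⟩
  have hZ := ZZ_nn hw
  have hA : 0 ≤ ∑ p ∈ U, a p := sum_nonneg fun p hp => (hw p hp).1
  have h0 : ∀ W ∈ U.powerset, 0 ≤ ∏ p ∈ W, a p := fun W hW =>
    prod_nonneg fun p hp => (hw p (mem_powerset.1 hW hp)).1
  rw [hP.sum]
  refine (sum_le_sum (g := fun W => ZZ U a b * Real.exp (-∑ p ∈ U, a p - 10) * ∏ p ∈ W, a p)
    fun W hW => ?_).trans ?_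
  · obtain ⟨h1, h2, h3⟩ := mem_filter.1 hW
    refine (hP.miss U W _ a b H.wt (mem_powerset.1 h1) (filter_subset _ _)).trans ?_
    rw [mul_right_comm]
    refine mul_le_mul_of_nonneg_right (mul_le_mul_of_nonneg_left (Real.exp_le_exp.2 ?_) hZ)
      (h0 W h1)
    linarith [H.det W (mem_powerset.1 h1) h2 h3]
  · rw [← mul_sum, mul_assoc, div_eq_mul_inv]
    refine mul_le_mul_of_nonneg_left ?_ hZ
    have h1 : ∑ W ∈ sm U D0, ∏ p ∈ W, a p ≤ Real.exp (∑ p ∈ U, a p) := by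
      refine (sum_le_sum_of_subset_of_nonneg (filter_subset _ _) fun W hW _ => h0 W hW).trans ?_
      rw [← prod_one_add, Real.exp_sum]
      exact prod_le_prod (fun p hp => by linarith [hw p hp])
        fun p _ => by linarith [Real.add_one_le_exp (a p)]
    refine (mul_le_mul_of_nonneg_left h1 (Real.exp_pos _).le).trans ?_
    rw [← Real.exp_add, show -∑ p ∈ U, a p - 10 + ∑ p ∈ U, a p = -10 by ring, Real.exp_neg]
    exact inv_anti₀ (by norm_num) (by linarith [Real.add_one_le_exp 10])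

theorem pt (H : Hyp U a b tp j0 m0 D0 R) {Sg B : Finset ℕ} (hS : Sg ⊆ U) (hB : B ⊆ U \ Sg)
    (ha : ∀ p ∈ Sg, a p ≠ 0) :
    ind (∑ l ∈ Sg ∪ B, eps l = 1 ∧ Even ((Sg ∪ B).filter fun l => lev l = 0).card) ≤
      ind (NiceT Sg B tp j0 ∧ ∑ l ∈ Sg ∪ B, eps l = 1 ∧ (B.card : ℝ) ≤ m0 ∧
        ∑ l ∈ Sg ∪ B, Real.log l ≤ R) +
      ∑ i ∈ range (tp + 1) ×ˢ univ, fc U tp j0 i Sg B +
      ∑ W ∈ sm U D0, ind (W ⊆ Sg ∧ Disjoint B (dt U tp W)) +
      ind ((xx tp j0 (tp / 2 + 1) : ℝ) < ∑ _p ∈ Sg, (1 : ℝ) + ∑ _p ∈ B, (0 : ℝ)) +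
      ind (m0 < ∑ _p ∈ Sg, (0 : ℝ) + ∑ _p ∈ B, (1 : ℝ)) +
      ind (D0 < ∑ p ∈ Sg, Real.log p + ∑ _p ∈ B, (0 : ℝ)) +
      ind (R < ∑ p ∈ Sg, Real.log p + ∑ p ∈ B, Real.log p) := by
  have hf : ∀ i, 0 ≤ fc U tp j0 i Sg B := fun i => add_nonneg (ind_nn _) (ind_nn _)
  have n1 := ind_nn (NiceT Sg B tp j0 ∧ ∑ l ∈ Sg ∪ B, eps l = 1 ∧ (B.card : ℝ) ≤ m0 ∧
    ∑ l ∈ Sg ∪ B, Real.log l ≤ R)
  have n2 : 0 ≤ ∑ i ∈ range (tp + 1) ×ˢ univ, fc U tp j0 i Sg B := sum_nonneg fun i _ => hf i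
  have n3 : 0 ≤ ∑ W ∈ sm U D0, ind (W ⊆ Sg ∧ Disjoint B (dt U tp W)) :=
    sum_nonneg fun _ _ => ind_nn _
  have n4 := ind_nn ((xx tp j0 (tp / 2 + 1) : ℝ) < ∑ _p ∈ Sg, (1 : ℝ) + ∑ _p ∈ B, (0 : ℝ))
  have n5 := ind_nn (m0 < ∑ _p ∈ Sg, (0 : ℝ) + ∑ _p ∈ B, (1 : ℝ))
  have n6 := ind_nn (D0 < ∑ p ∈ Sg, Real.log p + ∑ _p ∈ B, (0 : ℝ))
  have n7 := ind_nn (R < ∑ p ∈ Sg, Real.log p + ∑ p ∈ B, Real.log p)
  by_cases hp : ∑ l ∈ Sg ∪ B, eps l = 1 ∧ Even ((Sg ∪ B).filter fun l => lev l = 0).card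
  swap
  · rw [ind_neg hp]; linarith
  rw [ind_pos hp]
  by_contra! hn
  have key : ∀ {q : Prop} {x : ℝ}, ind q ≤ x → x < 1 → ¬q := fun h1 h2 hq => by
    rw [ind_pos hq] at h1; linarith
  have c4 := key le_rfl (show ind ((xx tp j0 (tp / 2 + 1) : ℝ) < ∑ _p ∈ Sg, (1 : ℝ) +
    ∑ _p ∈ B, (0 : ℝ)) < 1 by linarith)
  have c5 := key le_rfl (show ind (m0 < ∑ _p ∈ Sg, (0 : ℝ) + ∑ _p ∈ B, (1 : ℝ)) < 1 by linarith)
  have c6 := key le_rfl (show ind (D0 < ∑ p ∈ Sg, Real.log p + ∑ _p ∈ B, (0 : ℝ)) < 1 by linarith)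
  have c7 := key le_rfl (show ind (R < ∑ p ∈ Sg, Real.log p + ∑ p ∈ B, Real.log p) < 1 by linarith)
  simp only [sum_const, nsmul_eq_mul, mul_one, mul_zero, add_zero, zero_add, not_lt,
    Nat.cast_le] at c4 c5 c6
  refine key le_rfl (show _ < 1 by linarith) (show NiceT Sg B tp j0 ∧ ∑ l ∈ Sg ∪ B, eps l = 1 ∧
    (B.card : ℝ) ≤ m0 ∧ ∑ l ∈ Sg ∪ B, Real.log l ≤ R from
    ⟨⟨fun i hi ε => ?_, fun l hl => H.low l (hS hl) (ha l hl), c4, fun W hW hne => ?_, hp.2⟩,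
      hp.1, c5, ?_⟩)
  · have h1 : fc U tp j0 (i, ε) Sg B < 1 := (single_le_sum (fun i _ => hf i)
      (mem_product.2 ⟨mem_range.2 (Nat.lt_succ_of_le hi), mem_univ _⟩)).trans_lt (by linarith)
    have h2 := key (le_add_of_nonneg_right (ind_nn _)) h1
    have h3 := key (le_add_of_nonneg_left (ind_nn _)) h1
    rw [show B ∩ cl U (i, ε) = B.filter fun l => lev l = i ∧ eps l = ε by
      rw [cl, inter_filter, inter_eq_left.2 (hB.trans sdiff_subset)], not_lt] at h2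
    rw [sum_const_zero, zero_add, sum_boole, not_lt] at h3
    exact ⟨by exact_mod_cast h2, by exact_mod_cast h3⟩
  · have h1 : W ∈ sm U D0 := mem_filter.2 ⟨mem_powerset.2 (hW.trans hS), hne,
      (sum_le_sum_of_subset_of_nonneg hW fun p _ _ => Real.log_natCast_nonneg p).trans c6⟩
    have h2 := key (single_le_sum (f := fun W => ind (W ⊆ Sg ∧ Disjoint B (dt U tp W)))
      (fun _ _ => ind_nn _) h1) (by linarith)
    obtain ⟨l, h3, h4⟩ := not_disjoint_iff.1 fun h3 => h2 ⟨hW, h3⟩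
    exact ⟨l, h3, (mem_filter.1 h4).2⟩
  · rw [sum_union (disjoint_sdiff.mono_right hB)]
    exact not_lt.1 c7

end NA

open NA in
theorem rowNA : OfNA := fun hP U a b tp j0 m0 D0 R H hj => by
  have hw : ∀ p ∈ U, 0 ≤ a p ∧ 0 ≤ b p := fun p hp => ⟨(H.wt p hp).1, (H.wt p hp).2.1⟩
  have hZ := ZZ_nn hw
  have hl : ∀ p : ℕ, 0 ≤ Real.log p := Real.log_natCast_nonneg
  have h1 := (par hP H hj).trans (hP.mono U a b _ _ hw fun Sg hS B hB ha _ => NA.pt H hS hB ha)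
  rw [hP.add, hP.add, hP.add, hP.add, hP.add, hP.add] at h1
  have h2 := cnt hP H hj
  have h3 := det hP H
  have h4 := mk hP hw (fun _ => 1) (fun _ => 0) (fun _ _ => ⟨zero_le_one, le_rfl⟩) (c := 100)
    (by norm_num) (by simpa using H.sa)
  have h5 := mk hP hw (fun _ => 0) (fun _ => 1) (fun _ _ => ⟨le_rfl, zero_le_one⟩) (c := 100)
    (by norm_num) (by simpa using H.sb)
  have h6 := mk hP hw (fun p => Real.log p) (fun _ => 0) (fun p _ => ⟨hl p, le_rfl⟩) (c := 100)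
    (by norm_num) (by simpa using H.la)
  have h7 := mk hP hw (fun p => Real.log p) (fun p => Real.log p) (fun p _ => ⟨hl p, hl p⟩)
    (c := 100) (by norm_num) (by simpa only [add_mul] using H.lb)
  unfold ZZ at *
  linarith

end Pool.Agent.MP_1246c0_nt.H12
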