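import Pool.Agent.MP_1246c0_nt.H12.SpecA
import Pool.Agent.MP_db5b97_nt.H21.NT2

/-! Primes in the layers over the quadratic field. -/

namespace Pool.Agent.MP_1246c0_nt.H12

open NumberField IsDedekindDomain Finset Pool.Agent.MP_db5b97_nt.H85

namespace TP

section Gen

variable {E L : Type} [Field E] [NumberField E] [Field L] [NumberField L]

theorem zp_fix {G X : Type} [Group G] [MulAction G X] {g : G} {x : X} (h : g • x = x)
    (s : Subgroup.zpowers g) : (s : G) • x = x :=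
  (Subgroup.zpowers_le_of_mem (H := MulAction.stabilizer G x) h) s.2

omit [NumberField L] in
theorem prime_mem {w : Sp L} {d : ℕ} (hd : d ≠ 0) (h : (d : 𝓞 L) ∈ w.asIdeal) :
    ∃ l : ℕ, l.Prime ∧ l ∣ d ∧ (l : 𝓞 L) ∈ w.asIdeal := by
  have := w.isPrime
  rw [← Nat.prod_primeFactorsList hd, Nat.cast_list_prod, ← Multiset.prod_coe,
    Ideal.IsPrime.multiset_prod_mem_iff_exists_mem this] at h
  obtain ⟨_, h1, h2⟩ := h
  obtain ⟨l, h3, rfl⟩ := List.mem_map.1 (Multiset.mem_coe.1 h1)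
  exact ⟨l, Nat.prime_of_mem_primeFactorsList h3, Nat.dvd_of_mem_primeFactorsList h3, h2⟩

theorem not_mem {w : Sp L} {l s : ℕ} (hw : (l : 𝓞 L) ∈ w.asIdeal) (hs : s.Coprime l) :
    (s : 𝓞 L) ∉ w.asIdeal := (val_eq_one_iff w s).1 (by simpa using val_coprime hw hs)

omit [NumberField L] in
theorem dvd_mem {w : Sp L} {l d : ℕ} (hw : (l : 𝓞 L) ∈ w.asIdeal) (h : l ∣ d) :
    (d : 𝓞 L) ∈ w.asIdeal := w.asIdeal.mem_of_dvd (Nat.cast_dvd_cast h) hw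

theorem fix_of_in {g : L ≃ₐ[ℚ] L} {w : Sp L} (h : ∀ x : 𝓞 L, g • x - x ∈ w.asIdeal) :
    g • w = w := by
  ext x
  rw [mem_smul_iff]
  have := h (g⁻¹ • x)
  rw [smul_inv_smul] at this
  exact ⟨fun h1 => by simpa using add_mem this h1, fun h1 => by simpa using sub_mem h1 this⟩

variable [Algebra E L]

omit [NumberField E] in
theorem gal {g : L ≃ₐ[ℚ] L} (h : ∀ y, y ∈ (algebraMap E L).range ↔ g y = y) :
    IsGaloisGroup (Subgroup.zpowers g) E L where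
  faithful := inferInstance
  commutes := ⟨fun s a b => by
    rw [Algebra.smul_def, Algebra.smul_def, smul_mul']
    exact congrArg (· * _) (zp_fix (g := g) ((h _).1 ⟨a, rfl⟩) s)⟩
  isInvariant := ⟨fun y hy => (h y).2 (hy ⟨g, Subgroup.mem_zpowers g⟩)⟩

theorem ram_eq (G : Type) [Group G] [MulSemiringAction G L] [IsGaloisGroup G E L] (w : Sp L) :
    w.asIdeal.ramificationIdx (𝓞 E) = Nat.card (w.asIdeal.inertia G) := by
  have := IsGaloisGroup.finite G E L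
  have : w.asIdeal.LiesOver (und E w).asIdeal := ⟨rfl⟩
  have := w.isPrime
  have := (und E w).isMaximal
  have : Finite (𝓞 E ⧸ (und E w).asIdeal) := Ideal.finiteQuotientOfFreeOfNeBot _ (und E w).ne_bot
  rw [← Ideal.ramificationIdxIn_eq_ramificationIdx (und E w).asIdeal w.asIdeal G,
    ← Ideal.card_inertia_eq_ramificationIdxIn (G := G) (und E w).asIdeal w.asIdeal]

theorem trans (G : Type) [Group G] [MulSemiringAction G L] [IsGaloisGroup G E L] {w w' : Sp L}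
    (e : und E w' = und E w) : ∃ s : G, w' = s • w := by
  have := IsGaloisGroup.finite G E L
  have h1 := w.isPrime
  have h2 := w'.isPrime
  obtain ⟨s, hs⟩ := Algebra.IsInvariant.exists_smul_of_under_eq (𝓞 E) (𝓞 L) G
    w.asIdeal w'.asIdeal (congrArg (fun v : Sp E => v.asIdeal) e).symm
  exact ⟨s, HeightOneSpectrum.ext hs⟩

omit [NumberField E] [NumberField L] in
theorem mem_und (w : Sp L) (x : 𝓞 E) :
    x ∈ (und E w).asIdeal ↔ algebraMap (𝓞 E) (𝓞 L) x ∈ w.asIdeal := Iff.rfl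

/-- `g` extends `g'` -/
def Cp (g' : E ≃ₐ[ℚ] E) (g : L ≃ₐ[ℚ] L) : Prop := ∀ x, algebraMap E L (g' x) = g (algebraMap E L x)

variable {g' : E ≃ₐ[ℚ] E} {g : L ≃ₐ[ℚ] L}

theorem Cp.inv (h : Cp g' g) : Cp g'⁻¹ g⁻¹ := fun x => g.injective <| by
  rw [← h, AlgEquiv.aut_inv, AlgEquiv.aut_inv, AlgEquiv.apply_symm_apply, AlgEquiv.apply_symm_apply]

theorem Cp.pow (h : Cp g' g) (k : ℕ) : Cp (g' ^ k) (g ^ k) := by
  induction k with
  | zero => exact fun _ => rfl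
  | succ k ih => intro x; rw [pow_succ, pow_succ, AlgEquiv.mul_apply, AlgEquiv.mul_apply, ih, h]

theorem Cp.int (h : Cp g' g) (x : 𝓞 E) :
    algebraMap (𝓞 E) (𝓞 L) (g' • x) = g • algebraMap (𝓞 E) (𝓞 L) x :=
  Subtype.ext (h x)

theorem Cp.und (h : Cp g' g) (w : Sp L) : und E (g • w) = g' • und E w := by
  ext x
  rw [mem_und, mem_smul_iff, mem_smul_iff, mem_und, h.inv.int]

theorem uniq (h : ∀ y, y ∈ (algebraMap E L).range ↔ g y = y) {w w' : Sp L} (hw : g • w = w)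
    (e : und E w' = und E w) : w' = w := by
  have := gal h
  obtain ⟨s, hs⟩ := trans (Subgroup.zpowers g) e
  exact hs.trans (zp_fix hw s)

omit [NumberField E] in
theorem inv_int (h : ∀ y, y ∈ (algebraMap E L).range ↔ g y = y) {y : 𝓞 L} (hy : g • y = y) :
    ∃ x, algebraMap (𝓞 E) (𝓞 L) x = y := by
  obtain ⟨x, hx⟩ := (h y).2 (congrArg Subtype.val hy)
  refine ⟨⟨x, ?_⟩, Subtype.ext hx⟩
  exact (isIntegral_algebraMap_iff (algebraMap E L).injective).1 (hx ▸ y.2)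

/-- the ramification index in a quadratic extension -/
theorem ram_two (h : ∀ y, y ∈ (algebraMap E L).range ↔ g y = y) (ho : orderOf g = 2) (w : Sp L) :
    w.asIdeal.ramificationIdx (𝓞 E) = 1 ∨ (w.asIdeal.ramificationIdx (𝓞 E) = 2 ∧
      ∀ x : 𝓞 L, g • x - x ∈ w.asIdeal) := by
  have := gal h
  rw [ram_eq (Subgroup.zpowers g)]
  have hc : Nat.card (Subgroup.zpowers g) = 2 := by rw [Nat.card_zpowers, ho]
  have h1 := Subgroup.card_subgroup_dvd_card (w.asIdeal.inertia (Subgroup.zpowers g))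
  rw [hc, Nat.dvd_prime Nat.prime_two] at h1
  refine h1.imp id fun h2 => ⟨h2, ?_⟩
  have : Finite (Subgroup.zpowers g) := Nat.finite_of_card_ne_zero (by omega)
  have h3 := Subgroup.eq_top_of_card_eq _ (h2.trans hc.symm)
  exact (h3 ▸ Subgroup.mem_top _ :
    (⟨g, Subgroup.mem_zpowers g⟩ : Subgroup.zpowers g) ∈ w.asIdeal.inertia _)

end Gen

/-- the data of a layer together with the subfield fixed by `σ` -/
structure Cx (L F : Type) [Field L] [NumberField L] [Field F] [NumberField F] [Algebra F L]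
    (d M : ℕ) (s θ : L) (σ γ : L ≃ₐ[ℚ] L) (θ' : F) (γ' : F ≃ₐ[ℚ] F) : Prop where
  tw : Tw L d M s θ σ γ
  cy : Cy F M θ' γ'
  th : algebraMap F L θ' = θ
  cp : Cp γ' γ
  rg : ∀ y, y ∈ (algebraMap F L).range ↔ σ y = y
  os : orderOf σ = 2
  ss : σ * σ = 1
  cm : σ * γ = γ * σ

section Cx

variable {L F : Type} [Field L] [NumberField L] [Field F] [NumberField F]
  {d M : ℕ} {s θ : L} {σ γ : L ≃ₐ[ℚ] L} {θ' : F} {γ' : F ≃ₐ[ℚ] F}

theorem cx (hC : SCY) (hT : STW) (h : Tw L d M s θ σ γ) : ∃ (F : Type) (_ : Field F)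
    (_ : NumberField F) (_ : Algebra F L) (θ' : F) (γ' : F ≃ₐ[ℚ] F), Cx L F d M s θ σ γ θ' γ' := by
  obtain ⟨F, _, _, θ', γ', hF⟩ := hC.ex M
  obtain ⟨j, h1, h2, h3⟩ := hT.emb L F d M M s θ σ γ θ' γ' h hF le_rfl
  obtain ⟨-, -, h4, h5, h6, h7, -⟩ := hT.gal L d M s θ σ γ h
  letI := j.toAlgebra
  refine ⟨F, _, inferInstance, inferInstance, θ', γ', h, hF, (Nat.sub_self M ▸ h1 :), h2,
    fun y => ?_, orderOf_eq_prime (by rw [sq, h4]) (by simpa using h7 0), h4, h5⟩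
  rw [← h6, pow_orderOf_eq_one] at h3
  exact (h3 y).trans (and_iff_left rfl)

theorem d_ne (h : Tw L d M s θ σ γ) : d ≠ 0 := by have := h.md; omega

theorem gd (h : Tw L d M s θ σ γ) {l : ℕ} (hl : l.Prime) (hd : l ∣ d) : Gd 0 l :=
  ⟨hl, fun e => by have := h.md; subst e; omega, Nat.zero_le _⟩

theorem s_int (h : Tw L d M s θ σ γ) : IsIntegral ℤ s :=
  IsIntegral.of_pow two_pos (h.sq ▸ by simpa using isIntegral_algebraMap (R := ℤ) (A := L) (x := d))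

theorem ord_s (h : Tw L d M s θ σ γ) (w : Sp L) {x : Un L} (hx : x.val = s) :
    2 * ord w x = ord w (Un.mk d (Nat.cast_ne_zero.2 (d_ne h))) := by
  rw [show Un.mk (d : L) (Nat.cast_ne_zero.2 (d_ne h)) = 2 • x from
    Un.ext (by rw [Un.val_nsmul, hx, h.sq]; rfl), map_nsmul]
  simp

variable [Algebra F L]

theorem Cx.ram (hD : SDEC) (h : Cx L F d M s θ σ γ θ' γ') {w : Sp L} (hw : (d : 𝓞 L) ∈ w.asIdeal) :
    σ • w = w ∧ (∀ x : Un L, x.val = s → ord w x = 1) ∧ ∀ x : 𝓞 L, σ • x - x ∈ w.asIdeal := by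
  obtain ⟨l, hl, ⟨c, hc⟩, hm⟩ := prime_mem (d_ne h.tw) hw
  have hv := (NT2.nat_mem F l w).2 hm
  have hd0 := d_ne h.tw
  have hc0 : c ≠ 0 := by rintro rfl; simp [hc] at hd0
  have hcl : c.Coprime l := (Nat.coprime_of_squarefree_mul (hc ▸ h.tw.sqf)).symm
  have h1 : ord (und F w) (Un.mk d (Nat.cast_ne_zero.2 hd0)) = 1 := by
    rw [show Un.mk (d : F) (Nat.cast_ne_zero.2 hd0) =
      Un.mk (l : F) (Nat.cast_ne_zero.2 hl.ne_zero) +
      Un.mk (c : F) (Nat.cast_ne_zero.2 hc0) from Un.ext (by simp [hc]), map_add,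
      (hD.dec F M θ' γ' h.cy l _ (gd h.tw hl ⟨c, hc⟩) hv).2.2.1 _ (Un.val_mk _ _),
      (ord_eq_zero_iff _ (Un.mk (c : F) _)).2 (val_coprime hv hcl), add_zero]
  have h2 : ∀ x : Un L, x.val = s → 2 * ord w x = w.asIdeal.ramificationIdx (𝓞 F) := fun x hx => by
    rw [ord_s h.tw w hx, show Un.mk (d : L) (Nat.cast_ne_zero.2 hd0) =
      Un.inc F L (Un.mk d (Nat.cast_ne_zero.2 hd0)) from Un.ext (by simp), NT2.ord_inc, h1, mul_one]
  have hs : s ≠ 0 := fun e => hd0 (by simpa [e, eq_comm] using h.tw.sq)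
  rcases ram_two h.rg h.os w with h3 | ⟨h3, h4⟩
  · have := h2 (Un.mk s hs) rfl
    omega
  · refine ⟨fix_of_in h4, fun x hx => ?_, h4⟩
    have := h2 x hx
    omega

theorem Cx.unr (hC : SCY) (hT : STW) (h : Cx L F d M s θ σ γ θ' γ') (w : Pr L 2) (g : L ≃ₐ[ℚ] L)
    (hg : ∀ x : 𝓞 L, g • x - x ∈ w.1.asIdeal) : g = 1 ∨ (g = σ ∧ (d : 𝓞 L) ∈ w.1.asIdeal) := by
  obtain ⟨-, h1, -, -, h2, -⟩ := hT.gal L d M s θ σ γ h.tw
  obtain ⟨-, -, h3, h4⟩ := hC.gal F M θ' γ' h.cy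
  have key : ∀ k : ℕ, g θ = (γ ^ k) θ → γ ^ k = 1 := fun k hk => by
    have h5 := hg (algebraMap (𝓞 F) (𝓞 L) ⟨θ', h4⟩)
    have h6 : g • algebraMap (𝓞 F) (𝓞 L) ⟨θ', h4⟩ = γ ^ k • algebraMap (𝓞 F) (𝓞 L) ⟨θ', h4⟩ :=
      Subtype.ext (by
        show g (algebraMap F L θ') = (γ ^ k) (algebraMap F L θ')
        rw [h.th, hk])
    rw [h6, ← (h.cp.pow k).int, ← map_sub, ← mem_und, ← val_lt_one_iff] at h5
    have h7 := hC.dist F M θ' γ' h.cy (w.und F) k h5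
    rw [← orderOf_dvd_iff_pow_eq_one, h3] at h7
    rwa [← orderOf_dvd_iff_pow_eq_one, h2]
  obtain ⟨k, rfl | rfl⟩ := h1 g
  · exact Or.inl (key k rfl)
  · have h5 : σ * γ ^ k = σ := by
      rw [key k (by rw [(Commute.pow_right h.cm k).eq, AlgEquiv.mul_apply, h.tw.st]), mul_one]
    refine Or.inr ⟨h5, ?_⟩
    obtain ⟨t, rfl⟩ : ∃ t : 𝓞 L, (t : L) = s := ⟨⟨_, s_int h.tw⟩, rfl⟩
    have h6 := hg t
    have h7 : (σ * γ ^ k) • t - t = -(((2 : ℕ) : 𝓞 L) * t) := by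
      rw [h5, show σ • t = -t from Subtype.ext h.tw.ss]
      push_cast
      ring
    rw [h7, neg_mem_iff] at h6
    rw [show (d : 𝓞 L) = t ^ 2 from RingOfIntegers.ext (by simpa using h.tw.sq.symm)]
    exact w.1.asIdeal.pow_mem_of_mem ((w.1.isPrime.mem_or_mem h6).resolve_left w.2) 2 two_pos

theorem Cx.dec (hD : SDEC) (h : Cx L F d M s θ σ γ θ' γ') {l : ℕ} {w : Sp L} (hl : l.Prime)
    (hd : l ∣ d) (hw : (l : 𝓞 L) ∈ w.asIdeal) :
    (∀ j : ℕ, γ ^ j • w = w ↔ 2 ^ min (lev l) M ∣ j) ∧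
      (∀ w' : Sp L, (l : 𝓞 L) ∈ w'.asIdeal → ∃ j : ℕ, w' = γ ^ j • w) ∧
      ∀ x : 𝓞 L, γ ^ 2 ^ lev l • x - x ∈ w.asIdeal → ∃ a : ℤ, x - a ∈ w.asIdeal := by
  obtain ⟨h1, h2, -, h3⟩ := hD.dec F M θ' γ' h.cy l _ (gd h.tw hl hd) ((NT2.nat_mem F l w).2 hw)
  obtain ⟨h4, -, h5⟩ := h.ram hD (dvd_mem hw hd)
  refine ⟨fun j => ?_, fun w' hw' => ?_, fun x hx => ?_⟩
  · rw [← h1, ← (h.cp.pow j).und]
    exact ⟨fun e => by rw [e], fun e => uniq h.rg h4 e⟩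
  · obtain ⟨j, hj⟩ := h2 _ ((NT2.nat_mem F l w').2 hw')
    rw [← (h.cp.pow j).und] at hj
    exact ⟨j, (uniq h.rg (h.ram hD (dvd_mem hw' hd)).1 hj.symm).symm⟩
  · obtain ⟨y, hy⟩ := inv_int h.rg (y := x + σ • x)
      (by rw [smul_add, smul_smul, h.ss, one_smul, add_comm])
    obtain ⟨a, ha⟩ := h3 y (by
      rw [mem_und, map_sub, (h.cp.pow _).int, hy, smul_add, smul_smul,
        ← (Commute.pow_right h.cm _).eq, mul_smul]
      have := add_mem (add_mem hx hx) (h5 (γ ^ 2 ^ lev l • x - x))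
      rw [smul_sub] at this
      convert this using 1
      ring)
    rw [mem_und, map_sub, hy, map_intCast] at ha
    obtain ⟨m, rfl⟩ := hl.odd_of_ne_two (gd h.tw hl hd).2.1
    refine ⟨(m + 1) * a, ?_⟩
    have := sub_mem (w.asIdeal.mul_mem_left (m + 1) (sub_mem ha (h5 x))) (w.asIdeal.mul_mem_left x hw)
    convert this using 1
    push_cast
    ring

theorem Cx.two (hC : SCY) (h : Cx L F d M s θ σ γ θ' γ') :
    2 + θ ≠ 0 ∧ ∃ w : Sp L, (∀ v : Sp L, ((2 : ℕ) : 𝓞 L) ∈ v.asIdeal ↔ v = w) ∧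
      ∀ x : Un L, x.val = 2 + θ → ord w x = 1 ∧ dv L 2 x = 0 := by
  obtain ⟨h0, v, h1, h2, -, h3⟩ := hC.two F M θ' γ' h.cy
  have e : algebraMap F L (2 + θ') = 2 + θ := by rw [map_add, h.th, map_ofNat]
  obtain ⟨w, rfl⟩ := NT2.und_surj F L v
  have hw : ((2 : ℕ) : 𝓞 L) ∈ w.asIdeal := (NT2.nat_mem F 2 w).1 ((h1 _).2 rfl)
  obtain ⟨c, hc⟩ : ∃ c : ℕ, d = 4 * (2 * c + 1) + 1 := ⟨d / 8, by have := h.tw.md; omega⟩
  have hq : ((1 + s) / 2) ^ 2 - (1 + s) / 2 - (2 * c + 1 : ℕ) = 0 := by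
    have := h.tw.sq
    rw [hc] at this
    push_cast at this ⊢
    linear_combination this / 4
  have hi : IsIntegral ℤ ((1 + s) / 2) := by
    refine ⟨Polynomial.X ^ 2 - Polynomial.X - Polynomial.C ((2 * c + 1 : ℕ) : ℤ), by monicity!, ?_⟩
    simpa [Polynomial.eval₂_sub] using hq
  obtain ⟨ω, hω⟩ : ∃ ω : 𝓞 L, (ω : L) = (1 + s) / 2 := ⟨⟨_, hi⟩, rfl⟩
  have hs : σ • ω = 1 - ω := RingOfIntegers.ext (by
    show σ (ω : L) = 1 - (ω : L)
    rw [hω, map_div₀, map_add, map_one, map_ofNat, h.tw.ss]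
    ring)
  have hq' : ω * (ω - 1) = (2 * c + 1 : ℕ) := RingOfIntegers.ext (by
    rw [← hω] at hq
    simp only [map_mul, map_sub, map_one, map_natCast]
    linear_combination hq)
  have hn : ω * (ω - 1) ∉ w.asIdeal := hq' ▸ not_mem hw (by simp)
  have hf : σ • w = w := by
    by_contra hne
    have hm := w.isMaximal
    obtain ⟨a, ha, b, hb, hab⟩ := Submodule.mem_sup.1 ((Ideal.eq_top_iff_one _).1
      (hm.coprime_of_ne (σ • w).isMaximal fun e' => hne (HeightOneSpectrum.ext e'.symm)))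
    obtain ⟨y, hy⟩ := inv_int h.rg (y := ω * b + σ • (ω * b))
      (by rw [smul_add, smul_smul, h.ss, one_smul, add_comm])
    have h4 : σ • (ω * b) ∈ w.asIdeal := by
      rw [mem_smul_iff, inv_eq_of_mul_eq_one_right h.ss] at hb
      rw [smul_mul']
      exact w.asIdeal.mul_mem_left _ hb
    have h5 := add_mem (w.asIdeal.mul_mem_left ω ha) (neg_mem h4)
    have e' : ω = ω * a + ω * b := by rw [← mul_add, hab, mul_one]
    rcases h3 y with h6 | h6 <;> rw [mem_und] at h6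
    · refine hn (w.asIdeal.mul_mem_right _ ?_)
      convert add_mem h5 h6 using 1
      rw [hy]; linear_combination e'
    · refine hn (w.asIdeal.mul_mem_left _ ?_)
      convert add_mem h5 h6 using 1
      rw [map_sub, hy, map_one]; linear_combination e'
  refine ⟨e ▸ (map_ne_zero _).2 h0, w, fun v => ⟨fun hv => uniq h.rg hf
    ((h1 _).1 ((NT2.nat_mem F 2 v).2 hv)), fun e' => e' ▸ hw⟩, fun x hx => ?_⟩
  obtain rfl : x = Un.inc F L (Un.mk _ h0) := Un.ext (hx.trans e.symm)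
  obtain ⟨h4, h5⟩ := h2 (Un.mk _ h0) rfl
  refine ⟨?_, Finsupp.ext fun u => ?_⟩
  · rw [NT2.ord_inc, h4, (ram_two h.rg h.os w).resolve_right fun h6 => ?_]
    · simp
    · have h7 := add_mem (h6.2 ω) (w.asIdeal.mul_mem_left ω hw)
      rw [hs] at h7
      refine w.isPrime.ne_top ((Ideal.eq_top_iff_one _).2 ?_)
      convert h7 using 1
      push_cast
      ring
  · rw [dv_apply, NT2.ord_inc]
    exact mul_eq_zero_of_right _ (DFunLike.congr_fun h5 (u.und F))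

theorem Cx.decP (hD : SDEC) (h : Cx L F d M s θ σ γ θ' γ') {l : ℕ} {w : Pr L 2} (hl : l.Prime)
    (hd : l ∣ d) (hw : (l : 𝓞 L) ∈ w.1.asIdeal) :
    (∀ j : ℕ, γ ^ j • w = w ↔ 2 ^ min (lev l) M ∣ j) ∧
      ∀ w' : Pr L 2, (l : 𝓞 L) ∈ w'.1.asIdeal → ∃ j : ℕ, w' = γ ^ j • w := by
  obtain ⟨h1, h2, -⟩ := h.dec hD hl hd hw
  exact ⟨fun j => Subtype.ext_iff.trans (h1 j), fun w' hw' => (h2 w'.1 hw').imp fun _ => Subtype.ext⟩

omit [Algebra F L] in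
theorem ex_pr (h : Tw L d M s θ σ γ) {l : ℕ} (hl : l.Prime) (hd : l ∣ d) :
    ∃ w : Pr L 2, (l : 𝓞 L) ∈ w.1.asIdeal := by
  have := Fact.mk hl
  obtain ⟨Q, hQ, h1⟩ := Ideal.exists_maximal_ideal_liesOver_of_isIntegral (S := 𝓞 L)
    (Ideal.span {(l : ℤ)})
  have h2 : (l : 𝓞 L) ∈ Q := by
    simpa using (Ideal.mem_of_liesOver Q (Ideal.span {(l : ℤ)}) l).1 (Ideal.subset_span rfl)
  have h3 : Q ≠ ⊥ := fun e => hl.ne_zero (by simpa [e] using h2)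
  exact ⟨⟨⟨Q, hQ.isPrime, h3⟩, not_mem (w := ⟨Q, hQ.isPrime, h3⟩) h2
    ((Nat.coprime_primes Nat.prime_two hl).2 (gd h hl hd).2.1.symm)⟩, h2⟩

theorem Cx.fin (hD : SDEC) (h : Cx L F d M s θ σ γ θ' γ') :
    {w : Pr L 2 | (d : 𝓞 L) ∈ w.1.asIdeal}.Finite ∧
      {w : Pr L 2 | (d : 𝓞 L) ∈ w.1.asIdeal}.ncard ≤ tt d ∧
      ∀ m, am d ≤ m → Rm L d ≤ Iv γ m := by
  classical
  have hd0 := d_ne h.tw
  have hp : ∀ l, l.Prime → l ∣ d → ∀ w : Pr L 2, (l : 𝓞 L) ∈ w.1.asIdeal → ∀ j, 2 ^ lev l ∣ j →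
      γ ^ j • w = w := fun l hl hd w hw j hj =>
    ((h.decP hD hl hd hw).1 j).2 ((pow_dvd_pow 2 (min_le_left _ _)).trans hj)
  choose u hu using fun l : d.primeFactors =>
    ex_pr h.tw (Nat.prime_of_mem_primeFactors l.2) (Nat.dvd_of_mem_primeFactors l.2)
  have hs : {w : Pr L 2 | (d : 𝓞 L) ∈ w.1.asIdeal} ⊆ ((univ : Finset d.primeFactors).biUnion
      fun l => (range (2 ^ lev l)).image fun j => γ ^ j • u l : Finset (Pr L 2)) := fun w hw => by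
    obtain ⟨l, hl, hd, hm⟩ := prime_mem hd0 hw
    have h1 := hu ⟨l, Nat.mem_primeFactors.2 ⟨hl, hd, hd0⟩⟩
    obtain ⟨j, rfl⟩ := (h.decP hD hl hd h1).2 w hm
    refine mem_coe.2 (mem_biUnion.2 ⟨⟨l, Nat.mem_primeFactors.2 ⟨hl, hd, hd0⟩⟩, mem_univ _,
      mem_image.2 ⟨j % 2 ^ lev l, mem_range.2 (Nat.mod_lt _ (by positivity)), ?_⟩⟩)
    conv_rhs => rw [← Nat.mod_add_div j (2 ^ lev l), pow_add, mul_smul,
      hp l hl hd _ h1 _ (dvd_mul_right _ _)]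
  refine ⟨(finite_toSet _).subset hs, (Set.ncard_le_ncard hs (finite_toSet _)).trans ?_,
    fun m hm D hD' => Finsupp.ext fun w => ?_⟩
  · rw [Set.ncard_coe_finset, tt, ← sum_coe_sort]
    exact card_biUnion_le.trans (sum_le_sum fun l _ => card_image_le.trans (card_range _).le)
  · rw [NT2.pm_apply]
    by_cases hw : (d : 𝓞 L) ∈ w.1.asIdeal
    · obtain ⟨l, hl, hd, hm'⟩ := prime_mem hd0 hw
      rw [inv_smul_eq_iff.2 (hp l hl hd w hm' _ (pow_dvd_pow 2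
        ((le_sup (Nat.mem_primeFactors.2 ⟨hl, hd, hd0⟩)).trans hm))).symm]
    · rw [hD' w hw]
      refine hD' _ fun e => hw ?_
      rwa [show ((γ ^ 2 ^ m)⁻¹ • w).1 = (γ ^ 2 ^ m)⁻¹ • w.1 from rfl, mem_smul_iff,
        smul_natCast] at e

end Cx

theorem pull {L E : Type} [Field L] [NumberField L] [Field E] [NumberField E] [Algebra E L]
    {d m : ℕ} {σ γ : L ≃ₐ[ℚ] L} {σ' γ' : E ≃ₐ[ℚ] E} (h1 : Cp σ' σ) (h2 : Cp γ' γ)
    (h3 : ∀ y, y ∈ (algebraMap E L).range ↔ (γ ^ 2 ^ m) y = y)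
    (h4 : ∀ (k : ℕ) (w : Pr L 2), (∀ x : 𝓞 L, γ ^ k • x - x ∈ w.1.asIdeal) → γ ^ k = 1) :
    ∃ κ : Dv E 2 →+ Dv L 2, Function.Injective κ ∧ κ.range = Iv γ m ∧
      (∀ x, κ (dv E 2 x) = dv L 2 (um (algebraMap E L) x)) ∧ (∀ D, κ (σ' • D) = σ • κ D) ∧
      (∀ D, κ (γ' • D) = γ • κ D) ∧ (∀ D, κ D ∈ Rm L d ↔ D ∈ Rm E d) ∧
      ∀ D, κ D ∈ Oc γ m ↔ D ∈ Od ⊤ := by
  have := gal h3
  have hs : ∀ v : Pr E 2, ∃ w : Pr L 2, w.und E = v := fun v => by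
    obtain ⟨w, hw⟩ := NT2.und_surj E L v.1
    exact ⟨⟨w, fun h => v.2 (hw ▸ (NT2.nat_mem E 2 w).2 h)⟩, Subtype.ext hw⟩
  have hi : Function.Injective (con E L 2) := fun D D' e => Finsupp.ext fun v => by
    obtain ⟨w, rfl⟩ := hs v
    exact DFunLike.congr_fun e w
  have hu : Unr E L 2 := NT2.unr E L (Subgroup.zpowers (γ ^ 2 ^ m)) 2 fun g hg w => by
    by_contra! hn
    obtain ⟨k, hk⟩ := (mem_powers_iff_mem_zpowers.2 g.2 :)
    refine hg (Subtype.ext ?_)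
    simp only [← pow_mul] at hk
    exact hk.symm.trans (h4 _ w (hk ▸ hn))
  have hd : ∀ x, con E L 2 (dv E 2 x) = dv L 2 (um (algebraMap E L) x) := fun x =>
    Finsupp.ext fun w => by
      have := NT2.ord_inc E L w.1 x
      rw [hu w, Nat.cast_one, one_mul] at this
      exact this.symm
  have hc : ∀ {g' : E ≃ₐ[ℚ] E} {g : L ≃ₐ[ℚ] L}, Cp g' g → ∀ D,
      con E L 2 (g' • D) = g • con E L 2 D := fun h D => Finsupp.ext fun w => by
    rw [NT2.pm_apply, con_apply, con_apply, NT2.pm_apply]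
    exact congrArg D (Subtype.ext (h.inv.und w.1).symm)
  refine ⟨con E L 2, hi, AddSubgroup.ext fun D => ?_, hd, hc h1, hc h2, fun D => ⟨fun h v hv => ?_,
    fun h w hw => h _ fun e => hw ((NT2.nat_mem E d w.1).1 e)⟩, fun D => ⟨?_, ?_⟩⟩
  · rw [NT2.con_range E L (Subgroup.zpowers (γ ^ 2 ^ m))]
    exact ⟨fun h => h ⟨_, Subgroup.mem_zpowers _⟩, fun h g => zp_fix h g⟩
  · obtain ⟨w, rfl⟩ := hs v
    exact h w fun e => hv ((NT2.nat_mem E d w.1).2 e)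
  · rintro ⟨k, hk, x, hx, e⟩
    obtain ⟨y, hy⟩ := (h3 x.val).2 (congrArg Un.val hx)
    refine ⟨k, hk, Un.mk y fun h0 => x.val_ne (by rw [← hy, h0, map_zero]), trivial, hi ?_⟩
    rw [map_nsmul, e, hd]
    exact congrArg _ (Un.ext hy.symm)
  · rintro ⟨k, hk, x, -, e⟩
    exact ⟨k, hk, um (algebraMap E L) x, Un.ext ((h3 _).1 ⟨_, rfl⟩), by rw [← hd, ← e, map_nsmul]⟩

end TP

open TP in
theorem rowTP : OfTP := fun hC hD hT => by
  have hu : ∀ (L : Type) [Field L] [NumberField L] (d M : ℕ) (s θ : L) (σ γ : L ≃ₐ[ℚ] L),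
      Tw L d M s θ σ γ → ∀ (w : Pr L 2) (g : L ≃ₐ[ℚ] L), (∀ x : 𝓞 L, g • x - x ∈ w.1.asIdeal) →
        g = 1 ∨ (g = σ ∧ (d : 𝓞 L) ∈ w.1.asIdeal) := fun L _ _ d M s θ σ γ h => by
    obtain ⟨F, _, _, _, θ', γ', H⟩ := cx hC hT h
    exact H.unr hC hT
  refine ⟨fun L _ _ d M s θ σ γ h w hw => ?_, fun L _ _ d M s θ σ γ h w => ⟨fun hw x hx => ?_,
    hu L d M s θ σ γ h w⟩, fun L _ _ d M s θ σ γ h l w hl hd hw => ?_,
    fun L _ _ d M s θ σ γ h => ?_, fun L _ _ d M s θ σ γ h => ?_,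
    fun L L' _ _ _ _ d M m s θ σ γ s' θ' σ' γ' j h _ _ h1 h2 h3 => ?_⟩
  · obtain ⟨F, _, _, _, θ', γ', H⟩ := cx hC hT h
    exact (H.ram hD hw).imp_left Subtype.ext
  · have h1 := ord_s h w.1 hx
    rw [(ord_eq_zero_iff _ (Un.mk _ _)).2 (by simpa using (val_eq_one_iff w.1 d).2 hw)] at h1
    omega
  · obtain ⟨F, _, _, _, θ', γ', H⟩ := cx hC hT h
    exact ⟨(H.decP hD hl hd hw).1, (H.decP hD hl hd hw).2, (H.dec hD hl hd hw).2.2⟩
  · obtain ⟨F, _, _, _, θ', γ', H⟩ := cx hC hT h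
    exact H.two hC
  · obtain ⟨F, _, _, _, θ', γ', H⟩ := cx hC hT h
    exact ⟨(H.fin hD).1, (H.fin hD).2.1, fun l => ex_pr h, (H.fin hD).2.2⟩
  · letI := j.toAlgebra
    exact pull h1 h2 h3 fun k w hw => (hu L d M s θ σ γ h w _ hw).resolve_right fun e =>
      (hT.gal L d M s θ σ γ h).2.2.2.2.2.1 k e.1.symm

end Pool.Agent.MP_1246c0_nt.H12
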