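import Pool.Agent.MP_1246c0_nt.H55.SpecA

/-! Many classes modulo cubes in a real quadratic field. -/

namespace Pool.Agent.MP_1246c0_nt.H52

open NumberField IsDedekindDomain Pool.Agent.MP_db5b97_nt Pool.Agent.MP_db5b97_nt.H85
  Pool.Agent.MP_1246c0_nt.H55

section Comb

variable {A : Type} [AddCommGroup A]

/-- pairwise incongruent modulo `3` -/
def Inc (T : Finset A) : Prop := ∀ x ∈ T, ∀ y ∈ T, (∃ z : A, x - y = 3 • z) → x = y

theorem comb {r : ℕ} (e : Fin r → A)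
    (h : ∀ (a : Fin r → ℤ) (y : A), ∑ i, a i • e i = 3 • y → ∀ i, 3 ∣ a i)
    (W : AddSubgroup A) (hW : ∀ i, e i ∈ W) :
    ∃ T : Finset A, 0 ∈ T ∧ T.card = 3 ^ r ∧ (∀ x ∈ T, x ∈ W) ∧ Inc T := by
  classical
  let φ : (Fin r → Fin 3) → A := fun a => ∑ i, ((a i : ℕ) : ℤ) • e i
  have key : ∀ a b z, φ a - φ b = 3 • z → a = b := fun a b z hz => by
    have := h (fun i => ((a i : ℕ) : ℤ) - ((b i : ℕ) : ℤ)) z
      (by rw [← hz, ← Finset.sum_sub_distrib]; simp only [sub_smul])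
    funext i
    have h1 := this i
    have h2 := (a i).2
    have h3 := (b i).2
    exact Fin.ext (by omega)
  refine ⟨Finset.univ.image φ, Finset.mem_image.2 ⟨0, Finset.mem_univ _, by simp [φ]⟩, ?_, ?_, ?_⟩
  · rw [Finset.card_image_of_injective _ fun a b hab => key a b 0 (by simp [hab])]
    simp
  · intro x hx
    obtain ⟨a, -, rfl⟩ := Finset.mem_image.1 hx
    exact sum_mem fun i _ => zsmul_mem (hW i) _
  · rintro x hx y hy ⟨z, hz⟩
    obtain ⟨a, -, rfl⟩ := Finset.mem_image.1 hx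
    obtain ⟨b, -, rfl⟩ := Finset.mem_image.1 hy
    rw [key a b z hz]

theorem fib (T : Finset A) (W : AddSubgroup A) (hW : ∀ x ∈ T, x ∈ W) (hT : Inc T) (col : A → Fin 3)
    (n : ℕ) (hn : 0 < n) (hc : 3 * n ≤ T.card) :
    ∃ T' : Finset A, 0 ∈ T' ∧ n ≤ T'.card ∧ (∀ x ∈ T', x ∈ W) ∧ Inc T' ∧
      ∀ x ∈ T', ∃ y z, col y = col z ∧ x = y - z := by
  classical
  obtain ⟨c, -, hc'⟩ := Finset.exists_le_card_fiber_of_mul_le_card_of_maps_to
    (s := T) (t := Finset.univ) (f := col) (n := n) (fun _ _ => Finset.mem_univ _)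
    Finset.univ_nonempty (by simpa using hc)
  obtain ⟨z, hz⟩ := Finset.card_pos.1 (hn.trans_le hc')
  have hz' := Finset.mem_filter.1 hz
  refine ⟨(T.filter fun x => col x = c).image fun x => x - z,
    Finset.mem_image.2 ⟨z, hz, sub_self z⟩, ?_, ?_, ?_, ?_⟩
  · rwa [Finset.card_image_of_injective _ sub_left_injective]
  · intro x hx
    obtain ⟨y, hy, rfl⟩ := Finset.mem_image.1 hx
    exact sub_mem (hW y (Finset.mem_filter.1 hy).1) (hW z hz'.1)
  · rintro x hx y hy ⟨w, hw⟩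
    obtain ⟨a, ha, rfl⟩ := Finset.mem_image.1 hx
    obtain ⟨b, hb, rfl⟩ := Finset.mem_image.1 hy
    rw [hT a (Finset.mem_filter.1 ha).1 b (Finset.mem_filter.1 hb).1
      ⟨w, by rw [← hw, sub_sub_sub_cancel_right]⟩]
  · intro x hx
    obtain ⟨y, hy, rfl⟩ := Finset.mem_image.1 hx
    exact ⟨y, z, (Finset.mem_filter.1 hy).2.trans hz'.2.symm, rfl⟩

end Comb

variable {k : Type} [Field k] [NumberField k] (τ : k ≃ₐ[ℚ] k)

/-- the elements with `InW` as a group -/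
def WW : AddSubgroup (Un k) where
  carrier := {x | InW τ x}
  zero_mem' := ⟨⟨0, by simp⟩, 0, by simp⟩
  add_mem' := by
    rintro x y ⟨⟨a, ha⟩, E, hE⟩ ⟨⟨b, hb⟩, F, hF⟩
    refine ⟨⟨a + b, ?_⟩, E + F, by rw [map_add, hE, hF, smul_add]⟩
    rw [smul_add, smul_add, ← ha, ← hb]; abel
  neg_mem' := by
    rintro x ⟨⟨a, ha⟩, E, hE⟩
    refine ⟨⟨-a, ?_⟩, -E, by rw [map_neg, hE, smul_neg]⟩
    rw [smul_neg, smul_neg, ← ha]; abel

/-- units outside `3` of norm `± 1` -/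
noncomputable def NN : AddSubgroup (Un k) where
  carrier := {x | x ∈ SU k ∧ 2 • (x + τ • x) = 0}
  zero_mem' := ⟨zero_mem _, by simp⟩
  add_mem' := by
    rintro x y ⟨h1, h2⟩ ⟨h3, h4⟩
    refine ⟨add_mem h1 h3, ?_⟩
    rw [smul_add τ, add_add_add_comm, smul_add, h2, h4, add_zero]
  neg_mem' := by
    rintro x ⟨h1, h2⟩
    refine ⟨neg_mem h1, ?_⟩
    rw [smul_neg, ← neg_add, smul_neg, h2, neg_zero]

theorem NN_le : NN τ ≤ WW τ := fun x hx =>
  ⟨⟨x + τ • x, by rw [succ_nsmul, hx.2, zero_add]⟩, 0, by rw [smul_zero]; exact hx.1⟩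

theorem dv_smul {F G : Type} [Field F] [NumberField F] [Group G] [MulSemiringAction G F] {l : ℕ}
    (s : G) (x : Un F) : dv F l (s • x) = s • dv F l x := by
  ext w
  rw [Finsupp.comapSMul_apply, dv_apply, dv_apply, ← NT2.ord_smul F G s (s⁻¹ • w).1 x]
  congr 1
  exact congrArg _ (smul_inv_smul s w.1).symm

theorem ord_of_dv {F : Type} [Field F] [NumberField F] {l : ℕ} {x : Un F} (h : dv F l x = 0)
    (w : Pr F l) : ord w.1 x = 0 := by
  rw [← dv_apply, h]; rfl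

theorem dv_rat_surj (D : Dv ℚ 3) : ∃ t, dv ℚ 3 t = D := by
  have : IsPrincipalIdealRing (𝓞 ℚ) := classNumber_eq_one_iff.1 Rat.classNumber_eq
  obtain ⟨I, J, hI, hJ, -, rfl⟩ := exists_dI D
  obtain ⟨a, rfl⟩ := (IsPrincipalIdealRing.principal I).principal
  obtain ⟨b, rfl⟩ := (IsPrincipalIdealRing.principal J).principal
  exact ⟨mkI a (by simpa using hI) - mkI b (by simpa using hJ), by rw [map_sub, dv_mkI, dv_mkI]⟩

theorem three_inj [IsTotallyReal k] {z : Un k} (h : 3 • z = 0) : z = 0 := by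
  obtain ⟨w⟩ : Nonempty (InfinitePlace k) := inferInstance
  let φ : k →+* ℝ := InfinitePlace.embedding_of_isReal (IsTotallyReal.isReal w)
  have h1 : φ z.val ^ 3 = 1 := by
    rw [← map_pow, ← Un.val_nsmul, h, Un.val_zero, map_one]
  rcases (pow_eq_one_iff_of_ne_zero (by norm_num)).1 h1 with h2 | h2
  · exact Un.ext (φ.injective (h2.trans (map_one φ).symm))
  · exact absurd h2.2 (by decide)

theorem ex_eps [IsTotallyReal k] (hr : Module.finrank ℚ k = 2)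
    (hn : ∀ x, (Algebra.norm ℚ x : k) = x * τ x) :
    ∃ ε ∈ NN τ, (∀ w : Sp k, ord w ε = 0) ∧ ∀ (a : ℤ) (y : Un k), a • ε = 3 • y → 3 ∣ a := by
  have h1 : 0 < Units.rank k := by
    rw [IsTotallyReal.finrank] at hr
    rw [Units.rank, InfinitePlace.card_eq_nrRealPlaces_add_nrComplexPlaces]
    omega
  obtain ⟨u, hu⟩ : ∃ u, u = Units.fundSystem k ⟨0, h1⟩ := ⟨_, rfl⟩
  have hm : H79.io k (Additive.ofMul u) ∈ Ru k 3 ⊓ (dv k 3).ker := by
    rw [H79.units_eq]; exact ⟨_, rfl⟩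
  have hm2 : dv k 3 (H79.io k (Additive.ofMul u)) = 0 := hm.2
  have ho : ∀ w : Sp k, ord w (H79.io k (Additive.ofMul u)) = 0 := fun w => by
    by_cases h : ((3 : ℕ) : 𝓞 k) ∈ w.asIdeal
    · exact mem_Ru_iff_ord.1 hm.1 ⟨w, h⟩
    · exact ord_of_dv hm2 ⟨w, h⟩
  refine ⟨_, ⟨hm.2, Un.ext ?_⟩, ho, fun a y h => ?_⟩
  · have h2 : Algebra.norm ℚ (u : k) ^ 2 = 1 := by rw [← sq_abs, Units.norm, one_pow]
    have h3 := congrArg (Rat.cast : ℚ → k) h2
    rw [Rat.cast_pow, hn, Rat.cast_one] at h3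
    rw [Un.val_nsmul, Un.val_add, Un.val_smul, AlgEquiv.smul_def, Un.val_zero, H79.io_val,
      toMul_ofMul]
    exact h3
  · have hy0 : ∀ w : Sp k, ord w y = 0 := fun w => by
      have := congrArg (ord w) h
      rw [map_zsmul, ho, smul_zero, map_nsmul, nsmul_eq_mul] at this
      omega
    have hy : y ∈ (H79.io k).range := by
      rw [← H79.units_eq k 3]
      exact ⟨mem_Ru_iff_ord.2 fun w => hy0 _, Finsupp.ext fun w => hy0 _⟩
    obtain ⟨v, rfl⟩ := hy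
    rw [← map_zsmul, ← map_nsmul] at h
    have h2 : u ^ a = Additive.toMul v ^ 3 := congrArg Additive.toMul (H79.io_inj k h)
    obtain ⟨⟨ζ, e⟩, he, -⟩ := Units.exist_unique_eq_mul_prod k (Additive.toMul v)
    have h3 := (Units.exist_unique_eq_mul_prod k (u ^ a)).unique
      (y₁ := (1, Pi.single ⟨0, h1⟩ a)) (y₂ := (ζ ^ 3, fun i => e i * 3))
      (by
        rw [Finset.prod_eq_single ⟨0, h1⟩ (fun i _ hi => by simp [Pi.single_eq_of_ne hi])
          (by simp), hu]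
        simp)
      (by
        rw [h2, he, mul_pow, ← Finset.prod_pow]
        simp only [zpow_mul, SubmonoidClass.coe_pow, zpow_ofNat])
    have h4 := congrFun (congrArg Prod.snd h3) ⟨0, h1⟩
    simp only [Pi.single_eq_same] at h4
    exact ⟨_, h4.trans (mul_comm _ _)⟩

theorem ex_beta [IsTotallyReal k] (hi : ∀ x, τ (τ x) = x) (v : Pl k 3) (hv : τ • v ≠ v) :
    ∃ β ∈ NN τ, ∀ u ∈ NN τ, ord v.1 u = 0 → ∀ (b : ℤ) (y : Un k), u + b • β = 3 • y → 3 ∣ b := by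
  classical
  have hi' : ∀ x : Un k, τ • τ • x = x := fun x => Un.ext (hi x.val)
  obtain ⟨g, hg⟩ := Int.subgroup_cyclic ((NN τ).map (ord v.1))
  obtain ⟨β, hβ, e⟩ : g ∈ (NN τ).map (ord v.1) := hg ▸ AddSubgroup.mem_closure_singleton_self g
  have hg0 : g ≠ 0 := by
    obtain ⟨x, -, hx⟩ := AddSubgroup.nsmul_index_mem ((Ru k 1).map (dv k 1))
      (Finsupp.single (H10.pr1 v.1) 1)
    have h0 := Ru_index_ne (F := k) (l := 1)
    have h1 : ∀ w : Sp k, w ≠ v.1 → ord w x = 0 := fun w hw => by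
      have := DFunLike.congr_fun hx (H10.pr1 w)
      have hne : H10.pr1 w ≠ H10.pr1 v.1 := fun h => hw (congrArg (fun t : Pr k 1 => t.1) h)
      rw [Finsupp.smul_apply, Finsupp.single_eq_of_ne hne, smul_zero] at this
      exact this
    have h2 : ord v.1 x ≠ 0 := by
      have := DFunLike.congr_fun hx (H10.pr1 v.1)
      rw [Finsupp.smul_apply, Finsupp.single_eq_same, nsmul_eq_mul, mul_one] at this
      exact fun h => h0 (by exact_mod_cast this.symm.trans h)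
    have h3 : x ∈ SU k := Finsupp.ext fun w => h1 w.1 fun h => w.2 (h ▸ v.2)
    have h4 : x - τ • x ∈ NN τ := by
      refine ⟨sub_mem h3 ?_, by rw [smul_sub, hi', sub_add_sub_cancel, sub_self, smul_zero]⟩
      change dv k 3 (τ • x) = 0
      rw [dv_smul, show dv k 3 x = 0 from h3, smul_zero]
    have h5 : ord v.1 (x - τ • x) = ord v.1 x := by
      rw [map_sub, ← NT2.ord_smul k _ τ v.1 (τ • x), hi', h1 (τ • v.1) fun h => hv (Subtype.ext h),
        sub_zero]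
    rintro rfl
    have : ord v.1 x ∈ (NN τ).map (ord v.1) := ⟨_, h4, h5⟩
    rw [hg] at this
    obtain ⟨m, hm⟩ := AddSubgroup.mem_closure_singleton.1 this
    exact h2 (by rw [← hm, smul_zero])
  refine ⟨β, hβ, fun u hu h0 b y h => ?_⟩
  have h1 : 3 • y ∈ NN τ := h ▸ add_mem hu (zsmul_mem hβ b)
  have h2 : y ∈ NN τ := by
    refine ⟨?_, three_inj ?_⟩
    · have := h1.1
      change dv k 3 (3 • y) = 0 at this
      rw [map_nsmul] at this
      exact (nsmul_eq_zero_iff.1 this).resolve_right (by norm_num)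
    · have := h1.2
      rwa [smul_comm τ, ← smul_add, smul_comm] at this
  have h3 : ord v.1 y ∈ AddSubgroup.closure {g} := hg ▸ ⟨y, h2, rfl⟩
  obtain ⟨m, hm⟩ := AddSubgroup.mem_closure_singleton.1 h3
  have h4 := congrArg (ord v.1) h
  rw [map_add, h0, zero_add, map_zsmul, map_nsmul, e, ← hm, smul_eq_mul, smul_eq_mul,
    nsmul_eq_mul, ← mul_assoc] at h4
  exact ⟨m, mul_right_cancel₀ hg0 h4⟩

theorem ex_delta (hi : ∀ x, τ (τ x) = x) (hn : ∀ x, (Algebra.norm ℚ x : k) = x * τ x)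
    (h : ¬NoT k) :
    ∃ δ ∈ WW τ, ∀ u ∈ SU k, ∀ (c : ℤ) (y : Un k), u + c • δ = 3 • y → 3 ∣ c := by
  have hi' : ∀ x : Un k, τ • τ • x = x := fun x => Un.ext (hi x.val)
  obtain ⟨E, h⟩ := not_forall.1 h
  obtain ⟨⟨d, hd⟩, hE⟩ := Classical.not_imp.1 h
  have hδ : dv k 3 (d - τ • d) = 3 • (E - τ • E) := by
    rw [map_sub, dv_smul, hd, smul_comm τ, smul_sub]
  have hs : E + τ • E ∈ (dv k 3).range := by
    obtain ⟨t, ht⟩ := dv_rat_surj (nrD k 3 ℚ E)
    have h1 : dv ℚ 3 (3 • t - Un.nrm ℚ k d) = 0 := by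
      rw [map_sub, map_nsmul, ht, H10.dv_nrm, hd, map_nsmul, sub_self]
    have h2 : dv k 3 (Un.inc ℚ k (3 • t - Un.nrm ℚ k d)) = 0 := by
      ext w
      rw [dv_apply, NT2.ord_inc, show ord (und ℚ w.1) _ = 0 from DFunLike.congr_fun h1 (w.und ℚ)]
      simp
    have h3 : Un.inc ℚ k (Un.nrm ℚ k d) = d + τ • d := Un.ext (hn d.val)
    rw [map_sub, h3, map_sub, map_nsmul, map_nsmul, map_add, dv_smul, hd, smul_comm τ, ← smul_add,
      ← smul_sub] at h2
    exact ⟨_, sub_eq_zero.1 ((nsmul_eq_zero_iff.1 h2).resolve_right (by norm_num))⟩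
  refine ⟨d - τ • d, ⟨⟨0, by rw [smul_sub, hi', sub_add_sub_cancel, sub_self, smul_zero]⟩, _, hδ⟩,
    fun u hu c y e => ?_⟩
  have h1 := congrArg (dv k 3) e
  rw [map_add, show dv k 3 u = 0 from hu, zero_add, map_zsmul, hδ, map_nsmul, smul_comm] at h1
  have h2 : c • (E - τ • E) ∈ (dv k 3).range :=
    ⟨y, (nsmul_right_injective (by norm_num) h1).symm⟩
  have h3 : (3 : ℤ) • E ∈ (dv k 3).range := ⟨d, hd⟩
  by_contra hc
  obtain ⟨p, q, hpq⟩ : IsCoprime (3 : ℤ) (2 * c) := (Int.prime_three.coprime_iff_not_dvd).2 (by omega)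
  refine hE ?_
  have : E = p • (3 : ℤ) • E + q • (c • (E - τ • E) + c • (E + τ • E)) := by
    rw [← smul_add, sub_add_add_cancel, ← two_zsmul, smul_smul, smul_smul, smul_smul, ← add_smul,
      mul_assoc, mul_comm c, hpq, one_smul]
  rw [this]
  exact add_mem (zsmul_mem h3 p) (zsmul_mem (add_mem h2 (zsmul_mem hs c)) q)

theorem red3 {A : Type} [AddCommGroup A] {u δ y : A} {c : ℤ} (h : u + c • δ = 3 • y) (hc : 3 ∣ c) :
    ∃ y', u = 3 • y' := by
  obtain ⟨m, rfl⟩ := hc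
  exact ⟨y - m • δ, by rw [smul_sub, ← h, mul_smul, ← natCast_zsmul (m • δ) 3]; simp⟩

theorem rowSEL : RowQB → RowPAD → RowSEL := by
  intro hQ hP k _ _ D s τ hq
  obtain ⟨hi, -, -, -, -, hn, hR⟩ := hQ.invol k D s τ hq
  obtain ⟨ε, hε, hε0, hε1⟩ := ex_eps τ hq.rank hn
  by_cases hD : D % 3 = 1
  · obtain ⟨⟨ι⟩, hc, v, hv, -⟩ := hQ.split k D s τ hq hD
    obtain ⟨β, hβ, hβ1⟩ := ex_beta τ hi v hv
    obtain ⟨col, hcol⟩ := hP.col
    have i2 : ∀ (a b : ℤ) (y : Un k), a • ε + b • β = 3 • y → 3 ∣ a ∧ 3 ∣ b := fun a b y h => by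
      have h1 := hβ1 _ (zsmul_mem hε a) (by rw [map_zsmul, hε0, smul_zero]) b y h
      obtain ⟨y', h2⟩ := red3 h h1
      exact ⟨hε1 a y' h2, h1⟩
    have lam : ∀ x : Un k, (∃ y z : Un k, col (ι y.val) = col (ι z.val) ∧ x = y - z) →
        Lam 1 (ι x.val) := by
      rintro _ ⟨y, z, h, rfl⟩
      rw [Un.val_sub, map_div₀]
      exact hcol _ _ (by simp) (by simp) h
    by_cases hN : NoT k
    · obtain ⟨T, h0, h1, h2, h3⟩ := comb ![ε, β] (fun a y h => by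
        rw [Fin.sum_univ_two] at h
        exact Fin.forall_fin_two.2 (i2 _ _ y h)) (NN τ) (Fin.forall_fin_two.2 ⟨hε, hβ⟩)
      by_cases hG : ∃ η ∈ SU k, ¬Lam 1 (ι η.val)
      · obtain ⟨T', g0, g1, g2, g3, g4⟩ := fib T _ h2 h3 (fun x => col (ι x.val)) 3 (by norm_num)
          (by omega)
        exact ⟨T', g0, g1, fun h => absurd ⟨hN, Or.inr ⟨hc, ι, hG⟩⟩ h,
          fun x hx => NN_le τ (g2 x hx), g3, fun _ => ⟨ι, fun x hx => lam x (g4 x hx)⟩⟩
      · exact ⟨T, h0, by omega, fun _ => by omega, fun x hx => NN_le τ (h2 x hx), h3,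
          fun _ => ⟨ι, fun x hx => not_not.1 fun h => hG ⟨x, (h2 x hx).1, h⟩⟩⟩
    · obtain ⟨δ, hδ, hδ1⟩ := ex_delta τ hi hn hN
      obtain ⟨T, -, h1, h2, h3⟩ := comb ![ε, β, δ] (fun a y h => by
        rw [Fin.sum_univ_three] at h
        have h1 := hδ1 _ (add_mem (zsmul_mem hε (a 0)) (zsmul_mem hβ (a 1))).1 (a 2) y h
        obtain ⟨y', h2⟩ := red3 h h1
        intro i
        fin_cases i
        exacts [(i2 _ _ y' h2).1, (i2 _ _ y' h2).2, h1]) (WW τ) (fun i => by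
        fin_cases i
        exacts [NN_le τ hε, NN_le τ hβ, hδ])
      obtain ⟨T', g0, g1, g2, g3, g4⟩ := fib T _ h2 h3 (fun x => col (ι x.val)) 9 (by norm_num)
        (by omega)
      exact ⟨T', g0, by omega, fun _ => g1, g2, g3, fun _ => ⟨ι, fun x hx => lam x (g4 x hx)⟩⟩
  · have hc := (hQ.nonsplit k D s τ hq hD).1
    by_cases hN : NoT k
    · obtain ⟨T, h0, h1, h2, h3⟩ := comb ![ε] (fun a y h => by
        rw [Fin.sum_univ_one] at h
        exact Fin.forall_fin_one.2 (hε1 _ y h)) (WW τ) (Fin.forall_fin_one.2 (NN_le τ hε))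
      exact ⟨T, h0, by omega, fun h => absurd ⟨hN, Or.inl hc⟩ h, h2, h3, fun h => absurd h hD⟩
    · obtain ⟨δ, hδ, hδ1⟩ := ex_delta τ hi hn hN
      obtain ⟨T, h0, h1, h2, h3⟩ := comb ![ε, δ] (fun a y h => by
        rw [Fin.sum_univ_two] at h
        have h1 := hδ1 _ (zsmul_mem hε (a 0)).1 (a 1) y h
        obtain ⟨y', h2⟩ := red3 h h1
        exact Fin.forall_fin_two.2 ⟨hε1 _ y' h2, h1⟩) (WW τ)
        (Fin.forall_fin_two.2 ⟨NN_le τ hε, hδ⟩)
      exact ⟨T, h0, by omega, fun _ => by omega, h2, h3, fun h => absurd h hD⟩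

end Pool.Agent.MP_1246c0_nt.H52
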